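import Mathlib

/-!
Small-time local controllability in dimension three without a bound on the number of switchings.

For every `k ≥ 3` we give `k` pairwise different polynomial vector fields on `ℝ³` which are
small time locally controllable at the origin, but for which no integer `N` has
`0 ∈ int A_t(N)` for every `t > 0`.  The fields are `(a_i, b_i, y² - x⁴)`.
-/

namespace Pool.Agent.Results.MP_6714ac_an.NoSwitchingBound

open Set

/-- `attainable f t N` is the set of points of `ℝ³` reachable from the origin in total time less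
than `t` with at most `N` switchings between the fields `f 0, …, f (k-1)`: there are `m ≤ N + 1`
consecutive time intervals `[τ j, τ (j+1)]`, starting at `τ 0 = 0`, of positive length, with
`τ m < t`, indices `i j`, and a continuous path `γ` which starts at the origin, is an integral
curve of `f (i j)` on `[τ j, τ (j+1)]`, and ends at the given point at time `τ m`. -/
def attainable {k : ℕ} (f : Fin k → (Fin 3 → ℝ) → (Fin 3 → ℝ)) (t : ℝ) (N : ℕ) :
    Set (Fin 3 → ℝ) :=
  {x | ∃ (m : ℕ) (τ : ℕ → ℝ) (i : ℕ → Fin k) (γ : ℝ → (Fin 3 → ℝ)),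
      m ≤ N + 1 ∧ τ 0 = 0 ∧ (∀ j < m, τ j < τ (j + 1)) ∧ τ m < t ∧
      ContinuousOn γ (Icc 0 (τ m)) ∧
      (∀ j < m, ∀ s ∈ Icc (τ j) (τ (j + 1)),
        HasDerivWithinAt γ (f (i j) (γ s)) (Icc (τ j) (τ (j + 1))) s) ∧
      γ 0 = 0 ∧ γ (τ m) = x}

/-- Small time local controllability at the origin: for every `t > 0` the origin is an interior
point of the set of all points attainable in time less than `t` (any number of switchings). -/
def STLC {k : ℕ} (f : Fin k → (Fin 3 → ℝ) → (Fin 3 → ℝ)) : Prop :=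
  ∀ t > 0, (0 : Fin 3 → ℝ) ∈ interior (⋃ N : ℕ, attainable f t N)

/-- first components of the fields -/
noncomputable def ca {k : ℕ} (i : Fin k) : ℝ :=
  if i.val = 0 then 1 else if i.val = 1 then -1 else 0

/-- second components of the fields -/
noncomputable def cb {k : ℕ} (i : Fin k) : ℝ := if i.val ≤ 1 then 1 else -((i.val : ℝ) - 1)

/-- the fields `(a_i, b_i, y² - x⁴)` -/
noncomputable def fld (k : ℕ) (i : Fin k) (v : Fin 3 → ℝ) : Fin 3 → ℝ :=
  ![ca i, cb i, v 1 ^ 2 - v 0 ^ 4]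

/-- the flow of `(a, b, y² - x⁴)` -/
noncomputable def flow (a b s : ℝ) (v : Fin 3 → ℝ) : Fin 3 → ℝ :=
  ![v 0 + a * s, v 1 + b * s,
    v 2 + (v 1 ^ 2 * s + v 1 * b * s ^ 2 + b ^ 2 * s ^ 3 / 3) -
      (v 0 ^ 4 * s + 2 * v 0 ^ 3 * a * s ^ 2 + 2 * v 0 ^ 2 * a ^ 2 * s ^ 3 + v 0 * a ^ 3 * s ^ 4
        + a ^ 4 * s ^ 5 / 5)]

lemma flow_zero (a b : ℝ) (v : Fin 3 → ℝ) : flow a b 0 v = v := by
  ext j; fin_cases j <;> simp [flow]

lemma hasDerivAt_flow (a b p s : ℝ) (v : Fin 3 → ℝ) :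
    HasDerivAt (fun s => flow a b (s - p) v)
      ![a, b, (flow a b (s - p) v) 1 ^ 2 - (flow a b (s - p) v) 0 ^ 4] s := by
  rw [hasDerivAt_pi]
  have h1 : HasDerivAt (fun s : ℝ => s - p) 1 s := by
    simpa using (hasDerivAt_id s).sub_const p
  intro j
  fin_cases j
  · simpa [flow] using (h1.const_mul a).const_add (v 0)
  · simpa [flow] using (h1.const_mul b).const_add (v 1)
  · have h2 := h1.pow 2
    have h3 := h1.pow 3
    have h4 := h1.pow 4
    have h5 := h1.pow 5
    have := ((((h1.const_mul (v 1 ^ 2)).add (h2.const_mul (v 1 * b))).add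
      ((h3.const_mul (b ^ 2)).div_const 3)).const_add (v 2)).sub
      (((((h1.const_mul (v 0 ^ 4)).add (h2.const_mul (2 * v 0 ^ 3 * a))).add
        (h3.const_mul (2 * v 0 ^ 2 * a ^ 2))).add (h4.const_mul (v 0 * a ^ 3))).add
        ((h5.const_mul (a ^ 4)).div_const 5))
    simp only [flow]
    refine HasDerivAt.congr_deriv (f' := _) (this.congr_of_eventuallyEq ?_) ?_
    · exact Filter.Eventually.of_forall fun s => by simp
    · simp
      ring

/-- uniqueness of integral curves of `(a, b, y² - x⁴)` -/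
lemma eq_flow {a b p q : ℝ} (γ : ℝ → (Fin 3 → ℝ))
    (h : ∀ s ∈ Icc p q, HasDerivWithinAt γ ![a, b, (γ s) 1 ^ 2 - (γ s) 0 ^ 4] (Icc p q) s)
    (hpq : p < q) : ∀ s ∈ Icc p q, γ s = flow a b (s - p) (γ p) := by
  have hc : ∀ s ∈ Icc p q, ∀ j, HasDerivWithinAt (fun s => γ s j)
      ((![a, b, (γ s) 1 ^ 2 - (γ s) 0 ^ 4] : Fin 3 → ℝ) j) (Icc p q) s := by
    intro s hs
    exact hasDerivWithinAt_pi.1 (h s hs)
  have hfl : ∀ s ∈ Icc p q, ∀ j, HasDerivWithinAt (fun s => flow a b (s - p) (γ p) j)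
      ((![a, b, (flow a b (s - p) (γ p)) 1 ^ 2 - (flow a b (s - p) (γ p)) 0 ^ 4] : Fin 3 → ℝ) j)
      (Icc p q) s := by
    intro s _ j
    exact ((hasDerivAt_pi.1 (hasDerivAt_flow a b p s (γ p))) j).hasDerivWithinAt
  have key : ∀ j, (∀ s ∈ Icc p q, (![a, b, (γ s) 1 ^ 2 - (γ s) 0 ^ 4] : Fin 3 → ℝ) j =
      (![a, b, (flow a b (s - p) (γ p)) 1 ^ 2 - (flow a b (s - p) (γ p)) 0 ^ 4] : Fin 3 → ℝ) j) →
      ∀ s ∈ Icc p q, γ s j = flow a b (s - p) (γ p) j := by
    intro j hj s hs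
    have hd : ∀ s ∈ Icc p q, HasDerivWithinAt
        (fun s => γ s j - flow a b (s - p) (γ p) j) 0 (Icc p q) s := by
      intro s hs
      have := (hc s hs j).sub (hfl s hs j)
      rw [hj s hs, sub_self] at this
      exact this
    have h0 := constant_of_derivWithin_zero (f := fun s => γ s j - flow a b (s - p) (γ p) j)
      (a := p) (b := q) (fun s hs => (hd s hs).differentiableWithinAt)
      (fun s hs => (hd s ⟨hs.1, hs.2.le⟩).derivWithin
        ((uniqueDiffOn_Icc hpq) s ⟨hs.1, hs.2.le⟩)) s hs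
    simp only [sub_self, flow_zero] at h0
    linarith
  have k0 := key 0 (by intro s _; simp)
  have k1 := key 1 (by intro s _; simp)
  have k2 := key 2 (by intro s hs; simp [k0 s hs, k1 s hs])
  intro s hs
  ext j
  fin_cases j
  · exact k0 s hs
  · exact k1 s hs
  · exact k2 s hs

lemma abs_ca {k : ℕ} (i : Fin k) : |ca i| ≤ 1 := by
  unfold ca
  split_ifs <;> simp

lemma one_le_cb_sq {k : ℕ} (i : Fin k) : 1 ≤ cb i ^ 2 := by
  unfold cb
  split_ifs with h
  · simp
  · have : (2 : ℝ) ≤ (i.val : ℝ) := by exact_mod_cast (by omega : 2 ≤ i.val)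
    nlinarith

/-- One piece of a path: lower bound for the third coordinate. -/
lemma flow_two_ge {a b s T : ℝ} (v : Fin 3 → ℝ) (ha : |a| ≤ 1) (hb : 1 ≤ b ^ 2) (hs : 0 ≤ s)
    (hv : |v 0| + s ≤ T) :
    v 2 + s ^ 3 / 12 - T ^ 4 * s ≤ flow a b s v 2 := by
  have hT : 0 ≤ T := le_trans (add_nonneg (abs_nonneg _) hs) hv
  -- the `x⁴` part, as the derivative bound
  have h1 : v 0 ^ 4 * s + 2 * v 0 ^ 3 * a * s ^ 2 + 2 * v 0 ^ 2 * a ^ 2 * s ^ 3
      + v 0 * a ^ 3 * s ^ 4 + a ^ 4 * s ^ 5 / 5 ≤ T ^ 4 * s := by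
    have hmono : ∀ r ∈ Icc (0 : ℝ) s, (v 0 + a * r) ^ 4 ≤ T ^ 4 := by
      intro r hr
      have h2 : |v 0 + a * r| ≤ T := by
        calc |v 0 + a * r| ≤ |v 0| + |a * r| := abs_add_le _ _
          _ = |v 0| + |a| * r := by rw [abs_mul, abs_of_nonneg hr.1]
          _ ≤ |v 0| + 1 * s := by
            have := mul_le_mul ha hr.2 hr.1 zero_le_one
            linarith
          _ ≤ T := by linarith
      calc (v 0 + a * r) ^ 4 = |v 0 + a * r| ^ 4 := by
            rw [← abs_pow, abs_of_nonneg (by positivity)]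
        _ ≤ T ^ 4 := by gcongr
    have hint : ∫ r in (0:ℝ)..s, (v 0 + a * r) ^ 4 =
        v 0 ^ 4 * s + 2 * v 0 ^ 3 * a * s ^ 2 + 2 * v 0 ^ 2 * a ^ 2 * s ^ 3
      + v 0 * a ^ 3 * s ^ 4 + a ^ 4 * s ^ 5 / 5 := by
      have hd : ∀ r ∈ uIcc (0:ℝ) s, HasDerivAt (fun r : ℝ => v 0 ^ 4 * r + 2 * v 0 ^ 3 * a * r ^ 2
        + 2 * v 0 ^ 2 * a ^ 2 * r ^ 3 + v 0 * a ^ 3 * r ^ 4 + a ^ 4 * r ^ 5 / 5)
          ((v 0 + a * r) ^ 4) r := by
        intro r _
        have i1 := hasDerivAt_id r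
        have := (((((i1.const_mul (v 0 ^ 4)).add ((i1.pow 2).const_mul (2 * v 0 ^ 3 * a))).add
          ((i1.pow 3).const_mul (2 * v 0 ^ 2 * a ^ 2))).add
          ((i1.pow 4).const_mul (v 0 * a ^ 3))).add (((i1.pow 5).const_mul (a ^ 4)).div_const 5))
        refine HasDerivAt.congr_deriv (f' := _) (this.congr_of_eventuallyEq ?_) ?_
        · exact Filter.Eventually.of_forall fun s => by simp
        · simp
          ring
      rw [intervalIntegral.integral_eq_sub_of_hasDerivAt hd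
        (by apply Continuous.intervalIntegrable; fun_prop)]
      simp
    rw [← hint]
    calc ∫ r in (0:ℝ)..s, (v 0 + a * r) ^ 4 ≤ ∫ r in (0:ℝ)..s, T ^ 4 := by
          apply intervalIntegral.integral_mono_on hs
          · apply Continuous.intervalIntegrable; fun_prop
          · apply Continuous.intervalIntegrable; fun_prop
          · exact hmono
      _ = T ^ 4 * s := by simp; ring
  have h2 : s ^ 3 / 12 ≤ v 1 ^ 2 * s + v 1 * b * s ^ 2 + b ^ 2 * s ^ 3 / 3 := by
    have : v 1 ^ 2 * s + v 1 * b * s ^ 2 + b ^ 2 * s ^ 3 / 3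
      = s * (v 1 + b * s / 2) ^ 2 + b ^ 2 * s ^ 3 / 12 := by ring
    rw [this]
    have h3 : 0 ≤ s * (v 1 + b * s / 2) ^ 2 := by positivity
    have h4 : 1 * s ^ 3 ≤ b ^ 2 * s ^ 3 := by
      apply mul_le_mul_of_nonneg_right hb (by positivity)
    linarith
  simp only [flow, Matrix.cons_val]
  linarith

/-- Along a path with `m` pieces the third coordinate is bounded below. -/
lemma lower_bound {k : ℕ} {m : ℕ} {τ : ℕ → ℝ} {i : ℕ → Fin k} {γ : ℝ → (Fin 3 → ℝ)}
    (h0 : τ 0 = 0) (hτ : ∀ j < m, τ j < τ (j + 1))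
    (hγ : ∀ j < m, ∀ s ∈ Icc (τ j) (τ (j + 1)),
        HasDerivWithinAt γ (fld k (i j) (γ s)) (Icc (τ j) (τ (j + 1))) s)
    (hγ0 : γ 0 = 0) (T : ℝ) (hT : ∀ j ≤ m, τ j ≤ T) :
    ∀ j ≤ m, |γ (τ j) 0| ≤ τ j ∧
      ∑ l ∈ Finset.range j, (τ (l + 1) - τ l) ^ 3 / 12 - T ^ 4 * τ j ≤ γ (τ j) 2 := by
  intro j
  induction j with
  | zero => intro _; simp [h0, hγ0]
  | succ j ih =>
    intro hj
    obtain ⟨ih1, ih2⟩ := ih (by omega)
    have hlt := hτ j (by omega)
    have hfl := eq_flow (a := ca (i j)) (b := cb (i j)) γ (p := τ j) (q := τ (j + 1))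
      (hγ j (by omega)) hlt (τ (j + 1)) ⟨hlt.le, le_rfl⟩
    rw [hfl]
    constructor
    · simp only [flow, Matrix.cons_val_zero]
      calc |γ (τ j) 0 + ca (i j) * (τ (j + 1) - τ j)|
          ≤ |γ (τ j) 0| + |ca (i j)| * |τ (j + 1) - τ j| := by
            rw [← abs_mul]; exact abs_add_le _ _
        _ ≤ τ j + 1 * (τ (j + 1) - τ j) := by
            rw [abs_of_pos (sub_pos.2 hlt)]
            have := abs_ca (i j)
            have h3 : 0 < τ (j + 1) - τ j := sub_pos.2 hlt
            gcongr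
        _ = τ (j + 1) := by ring
    · rw [Finset.sum_range_succ]
      have := flow_two_ge (a := ca (i j)) (b := cb (i j)) (s := τ (j + 1) - τ j) (T := T)
        (γ (τ j)) (abs_ca _) (one_le_cb_sq _) (sub_pos.2 hlt).le
        (by have := hT (j + 1) hj; linarith)
      linarith

/-- the point `v` can be reached at the exact time `T` -/
def Reach (k : ℕ) (T : ℝ) (v : Fin 3 → ℝ) : Prop :=
  ∃ (m : ℕ) (τ : ℕ → ℝ) (i : ℕ → Fin k) (γ : ℝ → (Fin 3 → ℝ)),
      τ 0 = 0 ∧ (∀ j < m, τ j < τ (j + 1)) ∧ τ m = T ∧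
      ContinuousOn γ (Icc 0 T) ∧
      (∀ j < m, ∀ s ∈ Icc (τ j) (τ (j + 1)),
        HasDerivWithinAt γ (fld k (i j) (γ s)) (Icc (τ j) (τ (j + 1))) s) ∧
      γ 0 = 0 ∧ γ T = v

lemma Reach.mem {k : ℕ} {T t : ℝ} {v : Fin 3 → ℝ} (h : Reach k T v) (ht : T < t) :
    v ∈ ⋃ N : ℕ, attainable (fld k) t N := by
  obtain ⟨m, τ, i, γ, h0, h1, h2, h3, h4, h5, h6⟩ := h
  subst h2
  exact mem_iUnion.2 ⟨m, m, τ, i, γ, by omega, h0, h1, ht, h3, h4, h5, h6⟩

lemma mono_times {m : ℕ} {τ : ℕ → ℝ} (hτ : ∀ j < m, τ j < τ (j + 1)) :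
    ∀ l ≤ m, ∀ j ≤ l, τ j ≤ τ l := by
  intro l
  induction l with
  | zero => intro _ j hj; have : j = 0 := by omega
            subst this; exact le_rfl
  | succ l ih =>
    intro hl j hj
    rcases Nat.lt_or_ge l j with h | h
    · have : j = l + 1 := by omega
      subst this; exact le_rfl
    · exact (ih (by omega) j h).trans (hτ l (by omega)).le

lemma reach_zero {k : ℕ} (hk : 3 ≤ k) : Reach k 0 0 := by
  refine ⟨0, fun _ => 0, fun _ => ⟨0, by omega⟩, fun _ => 0, rfl, ?_, rfl, ?_, ?_, rfl, rfl⟩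
  · intro j hj; omega
  · exact continuousOn_const
  · intro j hj; omega

lemma Reach.step {k : ℕ} {T : ℝ} {v : Fin 3 → ℝ} (h : Reach k T v) (i0 : Fin k) {s : ℝ}
    (hs : 0 < s) : Reach k (T + s) (flow (ca i0) (cb i0) s v) := by
  obtain ⟨m, τ, i, γ, h0, h1, h2, h3, h4, h5, h6⟩ := h
  have hmono := mono_times h1
  have hT : 0 ≤ T := by rw [← h2, ← h0]; exact hmono m le_rfl 0 (Nat.zero_le _)
  set γ' : ℝ → (Fin 3 → ℝ) := fun r => if r ≤ T then γ r else flow (ca i0) (cb i0) (r - T) v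
    with hγ'
  have e1 : ∀ r ≤ T, γ' r = γ r := fun r hr => by simp [hγ', hr]
  have e2 : ∀ r, T ≤ r → γ' r = flow (ca i0) (cb i0) (r - T) v := by
    intro r hr
    rcases hr.eq_or_lt with h | h
    · subst h; simp [hγ', flow_zero, h6]
    · simp [hγ', not_le.2 h]
  refine ⟨m + 1, fun j => if j ≤ m then τ j else T + s, fun j => if j < m then i j else i0, γ',
    by simp [h0], ?_, by simp, ?_, ?_, ?_, ?_⟩
  · intro j hj
    rcases Nat.lt_or_ge j m with h | h
    · simp only [h.le, if_true, Nat.succ_le_of_lt h]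
      exact h1 j h
    · have : j = m := by omega
      subst this
      simp only [le_refl, if_true, h2]
      simp [hs]
  · have hu : Icc 0 (T + s) = Icc 0 T ∪ Icc T (T + s) := by
      rw [Icc_union_Icc_eq_Icc hT (by linarith)]
    rw [hu]
    apply ContinuousOn.union_of_isClosed _ _ isClosed_Icc isClosed_Icc
    · exact h3.congr fun r hr => e1 r hr.2
    · have : ContinuousOn (fun r => flow (ca i0) (cb i0) (r - T) v) (Icc T (T + s)) :=
        fun r _ => (hasDerivAt_flow _ _ _ _ _).continuousAt.continuousWithinAt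
      exact this.congr fun r hr => e2 r hr.1
  · intro j hj r hr
    rcases Nat.lt_or_ge j m with h | h
    · simp only [h.le, if_true, Nat.succ_le_of_lt h, h] at hr ⊢
      have hle : τ (j + 1) ≤ T := by rw [← h2]; exact hmono m le_rfl (j + 1) h
      have := h4 j h r hr
      rw [e1 r (hr.2.trans hle)]
      exact this.congr (fun r' hr' => e1 r' (hr'.2.trans hle)) (e1 r (hr.2.trans hle))
    · have : j = m := by omega
      subst this
      have hn : ¬ (j + 1 ≤ j) := by omega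
      simp only [le_refl, if_true, h2, hn, if_false, lt_irrefl] at hr ⊢
      rw [e2 r hr.1]
      have := (hasDerivAt_flow (ca i0) (cb i0) T r v).hasDerivWithinAt (s := Icc T (T + s))
      exact this.congr (fun r' hr' => e2 r' hr'.1) (e2 r hr.1)
  · rw [e1 0 hT, h5]
  · rw [e2 (T + s) (by linarith)]
    congr 1
    ring

lemma Reach.lower {k : ℕ} {T : ℝ} {v : Fin 3 → ℝ} (h : Reach k T v) : - T ^ 5 ≤ v 2 := by
  obtain ⟨m, τ, i, γ, h0, h1, h2, h3, h4, h5, h6⟩ := h
  have hmono := mono_times h1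
  have := (lower_bound h0 h1 h4 h5 T (fun j hj => by rw [← h2]; exact hmono m le_rfl j hj)
    m le_rfl).2
  rw [h2, h6] at this
  have hnn : 0 ≤ ∑ l ∈ Finset.range m, (τ (l + 1) - τ l) ^ 3 / 12 := by
    apply Finset.sum_nonneg
    intro l hl
    have := h1 l (Finset.mem_range.1 hl)
    have h7 : 0 < τ (l + 1) - τ l := sub_pos.2 this
    positivity
  nlinarith

section three
variable {k : ℕ} (hk : 3 ≤ k)
include hk

lemma Reach.step0 {T : ℝ} {v : Fin 3 → ℝ} (h : Reach k T v) {s : ℝ} (hs : 0 < s) :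
    Reach k (T + s) (flow 1 1 s v) := by
  have := h.step ⟨0, by omega⟩ hs
  simpa [ca, cb] using this

lemma Reach.step1 {T : ℝ} {v : Fin 3 → ℝ} (h : Reach k T v) {s : ℝ} (hs : 0 < s) :
    Reach k (T + s) (flow (-1) 1 s v) := by
  have := h.step ⟨1, by omega⟩ hs
  simpa [ca, cb] using this

lemma Reach.step2 {T : ℝ} {v : Fin 3 → ℝ} (h : Reach k T v) {s : ℝ} (hs : 0 < s) :
    Reach k (T + s) (flow 0 (-1) s v) := by
  have := h.step ⟨2, by omega⟩ hs
  have h2 : cb (⟨2, by omega⟩ : Fin k) = -1 := by simp [cb]; norm_num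
  have h3 : ca (⟨2, by omega⟩ : Fin k) = 0 := by simp [ca]
  rw [h2, h3] at this
  exact this

omit hk in
lemma pair_out (x z h : ℝ) : flow 0 (-1) h (flow 1 1 h ![x, 0, z]) =
    ![x + h, 0, z + 2 * h ^ 3 / 3 - ((x + h) ^ 5 - x ^ 5) / 5 - (x + h) ^ 4 * h] := by
  ext l
  fin_cases l
  · simp [flow]
  · simp [flow]
  · simp [flow]; ring

omit hk in
lemma pair_back (x z h : ℝ) : flow 0 (-1) h (flow (-1) 1 h ![x, 0, z]) =
    ![x - h, 0, z + 2 * h ^ 3 / 3 - (x ^ 5 - (x - h) ^ 5) / 5 - (x - h) ^ 4 * h] := by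
  ext l
  fin_cases l
  · simp [flow]; ring
  · simp [flow]
  · simp [flow]; ring

/-- the way out: `j` zigzags of size `h` -/
lemma zig (h : ℝ) (hh : 0 < h) (j : ℕ) :
    ∃ z, Reach k (2 * j * h) ![j * h, 0, z] ∧ z ≤ 2 / 3 * j * h ^ 3 - (j * h) ^ 5 / 5 := by
  induction j with
  | zero =>
    refine ⟨0, ?_, by simp⟩
    have h0 : (![((0:ℕ):ℝ) * h, 0, 0] : Fin 3 → ℝ) = 0 := by
      ext l; fin_cases l <;> simp
    rw [h0]
    simpa using reach_zero hk
  | succ j ih =>
    obtain ⟨z, hz, hz'⟩ := ih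
    have hr := Reach.step2 hk (Reach.step0 hk hz hh) hh
    rw [pair_out] at hr
    refine ⟨z + 2 * h ^ 3 / 3 - ((j * h + h) ^ 5 - (j * h) ^ 5) / 5 - (j * h + h) ^ 4 * h,
      ?_, ?_⟩
    · convert hr using 1
      · push_cast; ring
      · push_cast
        congr 1
        ring
    · have hx : (0:ℝ) ≤ j * h := by positivity
      have h4 : 0 ≤ (j * h + h) ^ 4 * h := by positivity
      push_cast
      have e : ((j + 1 : ℝ) * h) ^ 5 = (j * h + h) ^ 5 := by ring
      rw [e]
      linarith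

/-- the way back -/
lemma zag (h : ℝ) (hh : 0 < h) (M : ℕ) (z0 T0 : ℝ) (h0 : Reach k T0 ![M * h, 0, z0]) (j : ℕ)
    (hj : j ≤ M) :
    ∃ z, Reach k (T0 + 2 * j * h) ![M * h - j * h, 0, z] ∧ z ≤ z0 + 2 / 3 * j * h ^ 3 := by
  induction j with
  | zero => exact ⟨z0, by simpa using h0, by simp⟩
  | succ j ih =>
    obtain ⟨z, hz, hz'⟩ := ih (by omega)
    have hr := Reach.step2 hk (Reach.step1 hk hz hh) hh
    rw [pair_back] at hr
    refine ⟨z + 2 * h ^ 3 / 3 - ((M * h - j * h) ^ 5 - (M * h - j * h - h) ^ 5) / 5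
        - (M * h - j * h - h) ^ 4 * h, ?_, ?_⟩
    · convert hr using 1
      · push_cast; ring
      · push_cast
        congr 1
        ring
    · have hM : (j + 1 : ℝ) ≤ M := by exact_mod_cast hj
      have hx : (0:ℝ) ≤ M * h - j * h - h := by nlinarith
      have h4 : 0 ≤ (M * h - j * h - h) ^ 4 * h := by positivity
      have h5 : (M * h - j * h - h) ^ 5 ≤ (M * h - j * h) ^ 5 := by
        apply pow_le_pow_left₀ hx
        linarith
      push_cast
      nlinarith

/-- a loop which strictly decreases the third coordinate -/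
lemma loop {X : ℝ} (hX : 0 < X) :
    ∃ δ, 0 < δ ∧ δ ≤ (4 * X) ^ 5 ∧ Reach k (4 * X) ![0, 0, -δ] := by
  obtain ⟨M, hM⟩ := exists_nat_gt (3 / X)
  have hM0 : (0 : ℝ) < M := lt_trans (by positivity) hM
  set h : ℝ := X / M with hh
  have hpos : 0 < h := by positivity
  have hMh : M * h = X := by rw [hh]; field_simp
  obtain ⟨z1, hz1, hz1'⟩ := zig hk h hpos M
  obtain ⟨z2, hz2, hz2'⟩ := zag hk h hpos M z1 _ hz1 M le_rfl
  have hT : 2 * M * h + 2 * M * h = 4 * X := by rw [← hMh]; ring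
  have hv : (![M * h - M * h, 0, z2] : Fin 3 → ℝ) = ![0, 0, -(-z2)] := by simp
  rw [hT, hv] at hz2
  refine ⟨-z2, ?_, ?_, hz2⟩
  · rw [hMh] at hz1'
    have e1 : z2 ≤ 4 / 3 * X * h ^ 2 - X ^ 5 / 5 := by
      have e2 : (M : ℝ) * h ^ 3 = X * h ^ 2 := by rw [← hMh]; ring
      nlinarith
    have h3 : h < X ^ 2 / 3 := by
      rw [hh, div_lt_iff₀ hM0]
      rw [div_lt_iff₀ hX] at hM
      nlinarith
    have h4 : h ^ 2 < X ^ 4 / 9 := by nlinarith
    have h5 : X * h ^ 2 < X * (X ^ 4 / 9) := by gcongr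
    have h6 : 0 < X ^ 5 := by positivity
    nlinarith
  · have := hz2.lower
    simp at this
    linarith

end three

/-- third coordinate of the final correction -/
noncomputable def zeta (p : ℝ × ℝ × ℝ) : ℝ :=
  (flow 0 (-1) (2 * p.1 + p.2.1 - p.2.2) (flow (-1) 1 p.1 (flow 1 1 (p.1 + p.2.1) 0))) 2

lemma continuous_zeta : Continuous zeta := by
  unfold zeta flow
  simp
  fun_prop

lemma zeta_zero : zeta (0, 0, 0) = 0 := by simp [zeta, flow]

lemma zeta_diag (a : ℝ) : zeta (a, 0, 0) = 16 / 3 * a ^ 3 - 2 / 5 * a ^ 5 := by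
  simp [zeta, flow]; ring

lemma flow3 (δ a x y : ℝ) :
    flow 0 (-1) (2 * a + x - y) (flow (-1) 1 a (flow 1 1 (a + x) ![0, 0, -δ])) =
      ![x, y, zeta (a, x, y) - δ] := by
  ext l
  fin_cases l
  · simp [flow]
  · simp [flow]; ring
  · simp [flow, zeta]; ring

theorem stlc {k : ℕ} (hk : 3 ≤ k) : STLC (fld k) := by
  intro t ht
  set X : ℝ := min t 1 / 32 with hX
  have hm : 0 < min t 1 := lt_min ht one_pos
  have hX0 : 0 < X := by positivity
  have hXt : 32 * X ≤ t := by rw [hX]; have := min_le_left t 1; linarith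
  have hX1 : 32 * X ≤ 1 := by rw [hX]; have := min_le_right t 1; linarith
  obtain ⟨δ, hδ0, hδ1, hδ⟩ := loop hk hX0
  -- bounds for zeta
  have hz1 : 3 / 2 * δ < zeta (X, 0, 0) := by
    rw [zeta_diag]
    have h2 : X ^ 2 ≤ 1 / 1024 := by nlinarith
    have h3 : 0 < X ^ 3 := by positivity
    have h5 : X ^ 5 ≤ 1 / 1024 * X ^ 3 := by
      have : X ^ 5 = X ^ 2 * X ^ 3 := by ring
      rw [this]; gcongr
    have : (4 * X) ^ 5 = 1024 * X ^ 5 := by ring
    nlinarith
  have c1 : ∀ᶠ p in nhds ((X, 0, 0) : ℝ × ℝ × ℝ), 3 / 2 * δ < zeta p :=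
    continuous_zeta.continuousAt.eventually (lt_mem_nhds hz1)
  have c2 : ∀ᶠ p in nhds ((0, 0, 0) : ℝ × ℝ × ℝ), zeta p < 1 / 2 * δ :=
    continuous_zeta.continuousAt.eventually (gt_mem_nhds (by rw [zeta_zero]; linarith))
  obtain ⟨ε1, hε1, H1⟩ := Metric.eventually_nhds_iff.1 c1
  obtain ⟨ε2, hε2, H2⟩ := Metric.eventually_nhds_iff.1 c2
  set ε : ℝ := min (min (ε1 / 2) (ε2 / 4)) (min (X / 4) (δ / 4)) with hε
  have hε0 : 0 < ε := by positivity
  have hεa : ε ≤ ε1 / 2 := (min_le_left _ _).trans (min_le_left _ _)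
  have hεb : ε ≤ ε2 / 4 := (min_le_left _ _).trans (min_le_right _ _)
  have hεc : ε ≤ X / 4 := (min_le_right _ _).trans (min_le_left _ _)
  have hεd : ε ≤ δ / 4 := (min_le_right _ _).trans (min_le_right _ _)
  rw [mem_interior]
  refine ⟨Metric.ball 0 ε, ?_, Metric.isOpen_ball, Metric.mem_ball_self hε0⟩
  intro v hv
  have hv' : ∀ j, |v j| < ε := by
    intro j
    rw [mem_ball_zero_iff] at hv
    exact lt_of_le_of_lt (norm_le_pi_norm v j) hv
  have hv0 := abs_lt.1 (hv' 0)
  have hv1 := abs_lt.1 (hv' 1)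
  have hv2 := abs_lt.1 (hv' 2)
  -- intermediate value theorem
  have hcont : ContinuousOn (fun a => zeta (a, v 0, v 1) - δ) (Icc (2 * ε) X) := by
    apply Continuous.continuousOn
    apply Continuous.sub _ continuous_const
    exact continuous_zeta.comp (by fun_prop)
  have hlow : zeta (2 * ε, v 0, v 1) < 1 / 2 * δ := by
    apply H2
    simp only [Prod.dist_eq, Real.dist_eq, sub_zero]
    rw [abs_of_pos (by linarith : 0 < 2 * ε)]
    refine max_lt (by linarith) (max_lt ?_ ?_)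
    · have := hv' 0; linarith
    · have := hv' 1; linarith
  have hup : 3 / 2 * δ < zeta (X, v 0, v 1) := by
    apply H1
    simp only [Prod.dist_eq, Real.dist_eq, sub_zero, sub_self, abs_zero]
    refine max_lt hε1 (max_lt ?_ ?_)
    · have := hv' 0; linarith
    · have := hv' 1; linarith
  obtain ⟨a, ha, hza⟩ := intermediate_value_Icc (by linarith : 2 * ε ≤ X) hcont
    (show v 2 ∈ Icc _ _ from ⟨by linarith, by linarith⟩)
  simp only at hza
  have r1 := Reach.step0 hk hδ (s := a + v 0) (by linarith [ha.1])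
  have r2 := Reach.step1 hk r1 (s := a) (by linarith [ha.1])
  have r3 := Reach.step2 hk r2 (s := 2 * a + v 0 - v 1) (by linarith [ha.1])
  rw [flow3, hza] at r3
  have e : (![v 0, v 1, v 2] : Fin 3 → ℝ) = v := by
    ext l; fin_cases l <;> rfl
  rw [e] at r3
  exact r3.mem (by linarith [ha.2])

theorem no_bound (k N : ℕ) : ∃ t > 0, (0 : Fin 3 → ℝ) ∉ interior (attainable (fld k) t N) := by
  refine ⟨1 / (4 * (N + 1)), by positivity, ?_⟩
  intro hmem
  -- all attainable points have nonnegative third coordinate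
  have hnn : ∀ v ∈ attainable (fld k) (1 / (4 * (N + 1))) N, 0 ≤ v 2 := by
    rintro v ⟨m, τ, i, γ, hm, h0, h1, ht, h3, h4, h5, h6⟩
    have hmono := mono_times h1
    set T := τ m with hTdef
    have hT : 0 ≤ T := by rw [hTdef, ← h0]; exact hmono m le_rfl 0 (Nat.zero_le _)
    have := (lower_bound h0 h1 h4 h5 T (fun j hj => hmono m le_rfl j hj) m le_rfl).2
    rw [← hTdef, h6] at this
    refine le_trans ?_ this
    rcases Nat.eq_zero_or_pos m with hm0 | hm0
    · subst hm0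
      have : T = 0 := by rw [hTdef, h0]
      simp [this]
    · have hsum : ∑ l ∈ Finset.range m, (τ (l + 1) - τ l) = T := by
        rw [Finset.sum_range_sub, h0, sub_zero]
      have hpm := pow_sum_le_card_mul_sum_pow (s := Finset.range m)
        (f := fun l => τ (l + 1) - τ l)
        (fun l hl => (sub_pos.2 (h1 l (Finset.mem_range.1 hl))).le) 2
      simp only [Finset.card_range, hsum] at hpm
      rw [← Finset.sum_div]
      set S := ∑ l ∈ Finset.range m, (τ (l + 1) - τ l) ^ (2 + 1) with hS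
      have hmN : (m : ℝ) ≤ N + 1 := by exact_mod_cast hm
      have hm1 : (1 : ℝ) ≤ m := by exact_mod_cast hm0
      have hS0 : 0 ≤ S := by
        have h7 : 0 ≤ T ^ (2 + 1) := by positivity
        by_contra hneg
        push Not at hneg
        have : (m : ℝ) ^ 2 * S < 0 := mul_neg_of_pos_of_neg (by positivity) hneg
        linarith
      have h8 : T * (4 * (N + 1)) < 1 := by
        rw [lt_div_iff₀ (by positivity)] at ht
        exact ht
      have h9 : T * m ≤ 1 / 4 := by nlinarith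
      have h10 : (T * m) ^ 2 ≤ 1 / 16 := by
        have : 0 ≤ T * m := by positivity
        nlinarith
      -- `T⁵ m² ≤ T³ / 16 ≤ m² S / 16`
      have h11 : T ^ 5 * m ^ 2 ≤ m ^ 2 * S / 16 := by
        have e : T ^ 5 * (m : ℝ) ^ 2 = T ^ (2 + 1) * (T * m) ^ 2 := by ring
        rw [e]
        calc T ^ (2 + 1) * (T * m) ^ 2 ≤ T ^ (2 + 1) * (1 / 16) := by gcongr
          _ ≤ (m ^ 2 * S) * (1 / 16) := by gcongr
          _ = _ := by ring
      have h12 : T ^ 5 ≤ S / 16 := by
        have hmm : 0 < (m : ℝ) ^ 2 := by positivity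
        have : T ^ 5 * m ^ 2 ≤ (S / 16) * m ^ 2 := by linarith
        exact le_of_mul_le_mul_right this hmm
      have e5 : T ^ 4 * T = T ^ 5 := by ring
      rw [e5]
      linarith
  obtain ⟨ε, hε, hball⟩ := Metric.isOpen_iff.1 isOpen_interior 0 hmem
  have hv : (![0, 0, -(ε / 2)] : Fin 3 → ℝ) ∈ Metric.ball (0 : Fin 3 → ℝ) ε := by
    rw [mem_ball_zero_iff, pi_norm_lt_iff hε]
    intro j
    fin_cases j
    · simpa using hε
    · simpa using hε
    · simp [abs_of_pos hε]
      linarith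
  have := hnn _ (interior_subset (hball hv))
  simp at this
  linarith

lemma fld_injective (k : ℕ) : Function.Injective (fld k) := by
  intro i j hij
  have h := congrFun hij 0
  have h0 : ca i = ca j := by simpa [fld] using congrFun h 0
  have h1 : cb i = cb j := by simpa [fld] using congrFun h 1
  rcases Nat.lt_or_ge i.val 2 with hi | hi <;> rcases Nat.lt_or_ge j.val 2 with hj | hj
  · ext
    have hi' : i.val = 0 ∨ i.val = 1 := by omega
    have hj' : j.val = 0 ∨ j.val = 1 := by omega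
    rcases hi' with hi' | hi' <;> rcases hj' with hj' | hj' <;> simp [ca, hi', hj'] at h0 ⊢ <;>
      norm_num at h0
  · exfalso
    have hi' : i.val ≤ 1 := by omega
    have hj' : ¬ j.val ≤ 1 := by omega
    have : (2 : ℝ) ≤ (j.val : ℝ) := by exact_mod_cast hj
    simp only [cb, hi', hj', if_true, if_false] at h1
    linarith
  · exfalso
    have hi' : ¬ i.val ≤ 1 := by omega
    have hj' : j.val ≤ 1 := by omega
    have : (2 : ℝ) ≤ (i.val : ℝ) := by exact_mod_cast hi
    simp only [cb, hi', hj', if_true, if_false] at h1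
    linarith
  · have hi' : ¬ i.val ≤ 1 := by omega
    have hj' : ¬ j.val ≤ 1 := by omega
    simp only [cb, hi', hj', if_false] at h1
    have : (i.val : ℝ) = (j.val : ℝ) := by linarith
    ext
    exact_mod_cast this

lemma fld_analytic (k : ℕ) (i : Fin k) : AnalyticOnNhd ℝ (fld k i) Set.univ := by
  have : fld k i = fun v j => (![fun _ => ca i, fun _ => cb i, fun v => v 1 ^ 2 - v 0 ^ 4] :
      Fin 3 → (Fin 3 → ℝ) → ℝ) j v := by
    ext v j
    fin_cases j <;> simp [fld]
  rw [this]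
  apply AnalyticOnNhd.pi
  have hproj : ∀ j : Fin 3, AnalyticOnNhd ℝ (fun v : Fin 3 → ℝ => v j) Set.univ := fun j =>
    (ContinuousLinearMap.proj (R := ℝ) (φ := fun _ : Fin 3 => ℝ) j).analyticOnNhd _
  intro j
  fin_cases j
  · exact analyticOnNhd_const
  · exact analyticOnNhd_const
  · exact ((hproj 1).pow 2).sub ((hproj 0).pow 4)

lemma fld_polynomial (k : ℕ) (i : Fin k) (j : Fin 3) :
    ∃ P : MvPolynomial (Fin 3) ℝ, ∀ x, fld k i x j = MvPolynomial.eval x P := by
  fin_cases j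
  · exact ⟨MvPolynomial.C (ca i), fun x => by simp [fld]⟩
  · exact ⟨MvPolynomial.C (cb i), fun x => by simp [fld]⟩
  · exact ⟨MvPolynomial.X 1 ^ 2 - MvPolynomial.X 0 ^ 4, fun x => by simp [fld]⟩

/-- **Bounded switching fails in dimension three.** For every `k ≥ 3` there are `k` pairwise
different real-analytic (in fact polynomial) vector fields on `ℝ³` which are small time locally
controllable at the origin, while for every integer `N` there is `t > 0` such that the origin is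
not an interior point of the set attainable in time less than `t` with at most `N`
switchings. -/
theorem result (k : ℕ) (hk : 3 ≤ k) :
    ∃ f : Fin k → (Fin 3 → ℝ) → (Fin 3 → ℝ),
      Function.Injective f ∧
      (∀ i, AnalyticOnNhd ℝ (f i) Set.univ) ∧
      (∀ i j, ∃ P : MvPolynomial (Fin 3) ℝ, ∀ x, f i x j = MvPolynomial.eval x P) ∧
      STLC f ∧
      ∀ N : ℕ, ∃ t > 0, (0 : Fin 3 → ℝ) ∉ interior (attainable f t N) :=
  ⟨fld k, fld_injective k, fld_analytic k, fld_polynomial k, stlc hk, no_bound k⟩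

end Pool.Agent.Results.MP_6714ac_an.NoSwitchingBound
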